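import Mathlib

namespace Pool.Agent.Results.MP_cc637b_co.Triangles

universe u

/-- A candidate cycle: an injective cyclic sequence of `n + 3` vertices. -/
structure Cyc (V : Type) where
  n : ℕ
  f : Fin (n + 3) → V
  inj : Function.Injective f

variable {V : Type}

/-- The arcs of the cyclic sequence. -/
def Cyc.Arc (C : Cyc V) (x y : V) : Prop := ∃ i, C.f i = x ∧ C.f (i + 1) = y

/-- `C` is a directed cycle of the digraph with arc relation `E`. -/
def IsDiCycle (E : V → V → Prop) (C : Cyc V) : Prop := ∀ x y, C.Arc x y → E x y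

/-- The digraph obtained from `E` by reversing the cycle `C`. -/
def rev (E : V → V → Prop) (C : Cyc V) (x y : V) : Prop := (E x y ∧ ¬ C.Arc x y) ∨ C.Arc y x

/-- A well-ordered sequence of cycles: an ordinal length and a cycle for each smaller ordinal. -/
structure Seq (V : Type) where
  len : Ordinal.{u}
  cyc : (i : Ordinal.{u}) → i < len → Cyc V

/-- `s` is an initial segment of `t`. -/
def Seq.Init (s t : Seq.{u} V) : Prop :=
  s.len ≤ t.len ∧ ∀ i (hs : i < s.len) (ht : i < t.len), s.cyc i hs = t.cyc i ht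

/-- Every pair of vertices is an edge of only finitely many cycles of the sequence. -/
def Seq.LocFin (s : Seq.{u} V) : Prop :=
  ∀ x y, {i | ∃ h : i < s.len, (s.cyc i h).Arc x y ∨ (s.cyc i h).Arc y x}.Finite

/-- `RS D s E`: `s` is a reversal sequence of `D` and `E` is its result. -/
inductive RS (D : V → V → Prop) : Seq.{u} V → (V → V → Prop) → Prop
  | nil (s : Seq.{u} V) (h : s.len = 0) : RS D s D
  | snoc (s t : Seq.{u} V) (E : V → V → Prop) (h : RS D s E) (hst : s.Init t)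
      (hlen : t.len = s.len + 1) (hl : s.len < t.len) (hc : IsDiCycle E (t.cyc s.len hl)) :
      RS D t (rev E (t.cyc s.len hl))
  | lim (ζ : Ordinal.{u}) (ch : Ordinal.{u} → Seq.{u} V) (Es : Ordinal.{u} → V → V → Prop)
      (h : ∀ ξ, ξ < ζ → RS D (ch ξ) (Es ξ))
      (mono : ∀ ξ η, ξ ≤ η → η < ζ → (ch ξ).Init (ch η))
      (t : Seq.{u} V) (sub : ∀ ξ, ξ < ζ → (ch ξ).Init t)
      (cov : ∀ i, i < t.len → ∃ ξ, ξ < ζ ∧ i < (ch ξ).len) (lf : t.LocFin)
      (E : V → V → Prop)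
      (hE : ∀ x y, ∃ ξ₀, ξ₀ < ζ ∧ ∀ ξ, ξ₀ ≤ ξ → ξ < ζ → (E x y ↔ Es ξ x y)) :
      RS D t E

/-- The subdigraph of `E` induced on `S` is strong. -/
def Strong (E : V → V → Prop) (S : Set V) : Prop :=
  ∀ x ∈ S, ∀ y ∈ S, x ≠ y → Relation.ReflTransGen (fun a b => a ∈ S ∧ b ∈ S ∧ E a b) x y

/-- The example: arcs `n → n + 1` for all `n` and `2i + 2 → 2i`. -/
def D (x y : ℕ) : Prop := y = x + 1 ∨ (x = y + 2 ∧ y % 2 = 0)

lemma cut (C : Cyc V) (S : V → Prop) {x y : V} (h : C.Arc x y) (hx : S x) (hy : ¬ S y) :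
    ∃ a b, C.Arc a b ∧ ¬ S a ∧ S b := by
  by_contra hne
  push Not at hne
  obtain ⟨i, hi, hj⟩ := h
  have key : ∀ k : ℕ, ¬ S (C.f (i + 1 + Fin.ofNat (C.n + 3) k)) := by
    intro k
    induction k with
    | zero => simpa [hj] using hy
    | succ k ih =>
      have h1 : i + 1 + Fin.ofNat (C.n + 3) (k + 1) = i + 1 + Fin.ofNat (C.n + 3) k + 1 := by
        rw [add_assoc (i + 1)]
        congr 1
        ext
        simp [Fin.val_add]
      rw [h1]
      exact hne _ _ ⟨_, rfl, rfl⟩ ih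
  have h2 : i + 1 + Fin.ofNat (C.n + 3) (C.n + 2) = i := by
    rw [add_assoc]
    have : (1 : Fin (C.n + 3)) + Fin.ofNat (C.n + 3) (C.n + 2) = 0 := by
      ext
      simp [Fin.val_add, show 1 + (C.n + 2) = C.n + 3 by omega]
    rw [this, add_zero]
  have := key (C.n + 2)
  rw [h2, hi] at this
  exact this hx

def Inv (E : ℕ → ℕ → Prop) : Prop :=
  (∀ x y, E x y → D x y ∨ D y x) ∧ ∀ i,
    (E (2*i) (2*i+1) ∧ E (2*i+1) (2*i+2) ∧ E (2*i+2) (2*i) ∧
      ¬ E (2*i+1) (2*i) ∧ ¬ E (2*i+2) (2*i+1) ∧ ¬ E (2*i) (2*i+2)) ∨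
    (¬ E (2*i) (2*i+1) ∧ ¬ E (2*i+1) (2*i+2) ∧ ¬ E (2*i+2) (2*i) ∧
      E (2*i+1) (2*i) ∧ E (2*i+2) (2*i+1) ∧ E (2*i) (2*i+2))

lemma inv_D : Inv D := by
  refine ⟨fun x y h => Or.inl h, fun i => Or.inl ?_⟩
  unfold D
  omega

lemma inv_rev {E : ℕ → ℕ → Prop} (h : Inv E) (C : Cyc ℕ) (hc : IsDiCycle E C) :
    Inv (rev E C) := by
  obtain ⟨h1, h2⟩ := h
  refine ⟨?_, fun i => ?_⟩
  · rintro x y (⟨h, -⟩ | h)
    · exact h1 _ _ h
    · exact (h1 _ _ (hc _ _ h)).symm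
  · have up : ∀ m : ℕ, ∀ x y, C.Arc x y → x ≤ m → m < y →
        ∃ a b, C.Arc a b ∧ m < a ∧ b ≤ m := by
      intro m x y h hx hy
      obtain ⟨a, b, hab, ha, hb⟩ := cut C (fun z => z ≤ m) h hx (by omega)
      exact ⟨a, b, hab, by omega, hb⟩
    have down : ∀ m : ℕ, ∀ x y, C.Arc x y → m < x → y ≤ m →
        ∃ a b, C.Arc a b ∧ a ≤ m ∧ m < b := by
      intro m x y h hx hy
      obtain ⟨a, b, hab, ha, hb⟩ := cut C (fun z => m < z) h hx (by omega)
      exact ⟨a, b, hab, by omega, hb⟩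
    have c0 : ∀ a b, E a b → a ≤ 2*i → 2*i < b →
        (a = 2*i ∧ b = 2*i+1) ∨ (a = 2*i ∧ b = 2*i+2) := by
      intro a b h ha hb
      have := h1 _ _ h
      unfold D at this
      omega
    have c0' : ∀ a b, E a b → 2*i < a → b ≤ 2*i →
        (b = 2*i ∧ a = 2*i+1) ∨ (b = 2*i ∧ a = 2*i+2) := by
      intro a b h ha hb
      have := h1 _ _ h
      unfold D at this
      omega
    have c1 : ∀ a b, E a b → a ≤ 2*i+1 → 2*i+1 < b →
        (a = 2*i+1 ∧ b = 2*i+2) ∨ (a = 2*i ∧ b = 2*i+2) := by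
      intro a b h ha hb
      have := h1 _ _ h
      unfold D at this
      omega
    have c1' : ∀ a b, E a b → 2*i+1 < a → b ≤ 2*i+1 →
        (b = 2*i+1 ∧ a = 2*i+2) ∨ (b = 2*i ∧ a = 2*i+2) := by
      intro a b h ha hb
      have := h1 _ _ h
      unfold D at this
      omega
    rcases h2 i with ⟨e1, e2, e3, n1, n2, n3⟩ | ⟨n1, n2, n3, e1, e2, e3⟩
    · have m1 : ¬ C.Arc (2*i+1) (2*i) := fun h => n1 (hc _ _ h)
      have m2 : ¬ C.Arc (2*i+2) (2*i+1) := fun h => n2 (hc _ _ h)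
      have m3 : ¬ C.Arc (2*i) (2*i+2) := fun h => n3 (hc _ _ h)
      have a13 : C.Arc (2*i) (2*i+1) → C.Arc (2*i+2) (2*i) := by
        intro h
        obtain ⟨a, b, hab, ha, hb⟩ := up (2*i) _ _ h le_rfl (by omega)
        rcases c0' a b (hc _ _ hab) ha hb with ⟨rfl, rfl⟩ | ⟨rfl, rfl⟩
        · exact absurd hab m1
        · exact hab
      have a31 : C.Arc (2*i+2) (2*i) → C.Arc (2*i) (2*i+1) := by
        intro h
        obtain ⟨a, b, hab, ha, hb⟩ := down (2*i) _ _ h (by omega) le_rfl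
        rcases c0 a b (hc _ _ hab) ha hb with ⟨rfl, rfl⟩ | ⟨rfl, rfl⟩
        · exact hab
        · exact absurd hab m3
      have a23 : C.Arc (2*i+1) (2*i+2) → C.Arc (2*i+2) (2*i) := by
        intro h
        obtain ⟨a, b, hab, ha, hb⟩ := up (2*i+1) _ _ h le_rfl (by omega)
        rcases c1' a b (hc _ _ hab) ha hb with ⟨rfl, rfl⟩ | ⟨rfl, rfl⟩
        · exact absurd hab m2
        · exact hab
      have a32 : C.Arc (2*i+2) (2*i) → C.Arc (2*i+1) (2*i+2) := by
        intro h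
        obtain ⟨a, b, hab, ha, hb⟩ := down (2*i+1) _ _ h (by omega) (by omega)
        rcases c1 a b (hc _ _ hab) ha hb with ⟨rfl, rfl⟩ | ⟨rfl, rfl⟩
        · exact hab
        · exact absurd hab m3
      unfold rev
      by_cases q : C.Arc (2*i+2) (2*i)
      · right
        have q1 := a31 q
        have q2 := a32 q
        tauto
      · left
        have q1 := mt a13 q
        have q2 := mt a23 q
        tauto
    · have m1 : ¬ C.Arc (2*i) (2*i+1) := fun h => n1 (hc _ _ h)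
      have m2 : ¬ C.Arc (2*i+1) (2*i+2) := fun h => n2 (hc _ _ h)
      have m3 : ¬ C.Arc (2*i+2) (2*i) := fun h => n3 (hc _ _ h)
      have a13 : C.Arc (2*i+1) (2*i) → C.Arc (2*i) (2*i+2) := by
        intro h
        obtain ⟨a, b, hab, ha, hb⟩ := down (2*i) _ _ h (by omega) le_rfl
        rcases c0 a b (hc _ _ hab) ha hb with ⟨rfl, rfl⟩ | ⟨rfl, rfl⟩
        · exact absurd hab m1
        · exact hab
      have a31 : C.Arc (2*i) (2*i+2) → C.Arc (2*i+1) (2*i) := by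
        intro h
        obtain ⟨a, b, hab, ha, hb⟩ := up (2*i) _ _ h le_rfl (by omega)
        rcases c0' a b (hc _ _ hab) ha hb with ⟨rfl, rfl⟩ | ⟨rfl, rfl⟩
        · exact hab
        · exact absurd hab m3
      have a23 : C.Arc (2*i+2) (2*i+1) → C.Arc (2*i) (2*i+2) := by
        intro h
        obtain ⟨a, b, hab, ha, hb⟩ := down (2*i+1) _ _ h (by omega) le_rfl
        rcases c1 a b (hc _ _ hab) ha hb with ⟨rfl, rfl⟩ | ⟨rfl, rfl⟩
        · exact absurd hab m2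
        · exact hab
      have a32 : C.Arc (2*i) (2*i+2) → C.Arc (2*i+2) (2*i+1) := by
        intro h
        obtain ⟨a, b, hab, ha, hb⟩ := up (2*i+1) _ _ h (by omega) (by omega)
        rcases c1' a b (hc _ _ hab) ha hb with ⟨rfl, rfl⟩ | ⟨rfl, rfl⟩
        · exact hab
        · exact absurd hab m3
      unfold rev
      by_cases q : C.Arc (2*i) (2*i+2)
      · left
        have q1 := a31 q
        have q2 := a32 q
        tauto
      · right
        have q1 := mt a13 q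
        have q2 := mt a23 q
        tauto

lemma inv_RS {s : Seq.{u} ℕ} {E : ℕ → ℕ → Prop} (h : RS D s E) : Inv E := by
  induction h with
  | nil s h => exact inv_D
  | snoc s t E h hst hlen hl hc ih => exact inv_rev ih _ hc
  | lim ζ ch Es h mono t sub cov lf E hE ih =>
    refine ⟨fun x y hxy => ?_, fun i => ?_⟩
    · obtain ⟨ξ, hξ, h1⟩ := hE x y
      exact (ih ξ hξ).1 x y ((h1 ξ le_rfl hξ).1 hxy)
    · obtain ⟨a1, b1, c1⟩ := hE (2*i) (2*i+1)
      obtain ⟨a2, b2, c2⟩ := hE (2*i+1) (2*i+2)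
      obtain ⟨a3, b3, c3⟩ := hE (2*i+2) (2*i)
      obtain ⟨a4, b4, c4⟩ := hE (2*i+1) (2*i)
      obtain ⟨a5, b5, c5⟩ := hE (2*i+2) (2*i+1)
      obtain ⟨a6, b6, c6⟩ := hE (2*i) (2*i+2)
      have hm : max (max (max a1 a2) (max a3 a4)) (max a5 a6) < ζ := by
        simp only [max_lt_iff]
        exact ⟨⟨⟨b1, b2⟩, b3, b4⟩, b5, b6⟩
      rw [c1 _ (by simp) hm, c2 _ (by simp) hm, c3 _ (by simp) hm, c4 _ (by simp) hm,
        c5 _ (by simp) hm, c6 _ (by simp) hm]
      exact (ih _ hm).2 i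

lemma strong_of_inv {E : ℕ → ℕ → Prop} (h : Inv E) : Strong E Set.univ := by
  have st : ∀ a b, E a b → Relation.ReflTransGen
      (fun a b => a ∈ (Set.univ : Set ℕ) ∧ b ∈ (Set.univ : Set ℕ) ∧ E a b) a b :=
    fun a b hab => Relation.ReflTransGen.single ⟨trivial, trivial, hab⟩
  have step : ∀ n, Relation.ReflTransGen
      (fun a b => a ∈ (Set.univ : Set ℕ) ∧ b ∈ (Set.univ : Set ℕ) ∧ E a b) n (n+1) ∧
      Relation.ReflTransGen
      (fun a b => a ∈ (Set.univ : Set ℕ) ∧ b ∈ (Set.univ : Set ℕ) ∧ E a b) (n+1) n := by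
    intro n
    obtain ⟨i, rfl | rfl⟩ := Nat.even_or_odd' n
    · rcases h.2 i with ⟨e1, e2, e3, -⟩ | ⟨-, -, -, e1, e2, e3⟩
      · exact ⟨st _ _ e1, (st _ _ e2).trans (st _ _ e3)⟩
      · exact ⟨(st _ _ e3).trans (st _ _ e2), st _ _ e1⟩
    · rcases h.2 i with ⟨e1, e2, e3, -⟩ | ⟨-, -, -, e1, e2, e3⟩
      · exact ⟨st _ _ e2, (st _ _ e3).trans (st _ _ e1)⟩
      · exact ⟨(st _ _ e1).trans (st _ _ e3), st _ _ e2⟩
  have z : ∀ n, Relation.ReflTransGen
      (fun a b => a ∈ (Set.univ : Set ℕ) ∧ b ∈ (Set.univ : Set ℕ) ∧ E a b) 0 n ∧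
      Relation.ReflTransGen
      (fun a b => a ∈ (Set.univ : Set ℕ) ∧ b ∈ (Set.univ : Set ℕ) ∧ E a b) n 0 := by
    intro n
    induction n with
    | zero => exact ⟨.refl, .refl⟩
    | succ n ih => exact ⟨ih.1.trans (step n).1, (step n).2.trans ih.2⟩
  intro x _ y _ _
  exact (z x).2.trans (z y).1

theorem result :
    ∃ (V : Type) (A : V → V → Prop), Countable V ∧ (∀ x, ¬ A x x) ∧ (∀ x y, A x y → ¬ A y x) ∧
      (∀ x, {y | A x y ∨ A y x}.Finite) ∧
      ∀ (s : Seq.{u} V) (E : V → V → Prop), RS A s E →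
        ∃ S : Set V, Maximal (Strong E) S ∧ S.Infinite := by
  refine ⟨ℕ, D, inferInstance, ?_, ?_, ?_, ?_⟩
  · intro x
    unfold D
    omega
  · intro x y
    unfold D
    omega
  · intro x
    refine (Set.finite_le_nat (x + 2)).subset ?_
    intro y hy
    simp only [D, Set.mem_setOf_eq] at hy ⊢
    omega
  · intro s E h
    exact ⟨Set.univ, ⟨strong_of_inv (inv_RS h), fun _ _ _ => Set.subset_univ _⟩,
      Set.infinite_univ⟩

end Pool.Agent.Results.MP_cc637b_co.Triangles
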